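import Mathlib

/-!
# MP_c9219e_nt: when the generalised Graham function `g_m(n)` equals `2 n`, for odd `m`
-/

set_option autoImplicit false

namespace Pool.Agent.Results.MP_c9219e_nt.OddExponentCase

/-- An `m`-product sequence: a non-decreasing finite sequence of natural numbers whose product is an
`m`-th power and in which every integer occurs at most `m - 1` times. -/
def IsProductSeq (m : ℕ) (l : List ℕ) : Prop :=
  l.Pairwise (· ≤ ·) ∧ (∃ R : ℕ, l.prod = R ^ m) ∧ ∀ x : ℕ, l.count x ≤ m - 1

/-- The set of possible last terms of `m`-product sequences with first term `n`. -/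
def lastTerms (m n : ℕ) : Set ℕ :=
  {s | ∃ l : List ℕ, IsProductSeq m l ∧ l.head? = some n ∧ l.getLast? = some s}

/-- The generalised Graham function: the least last term of an `m`-product sequence starting
with `n`. -/
noncomputable def g (m n : ℕ) : ℕ := sInf (lastTerms m n)

lemma head_of_sorted {l : List ℕ} (hl : l.Pairwise (· ≤ ·)) {n : ℕ} (hn : n ∈ l)
    (hmin : ∀ x ∈ l, n ≤ x) : l.head? = some n := by
  cases l with
  | nil => simp at hn
  | cons y t =>
    rw [List.head?_cons]
    congr 1
    have h1 : n ≤ y := hmin y (by simp)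
    rcases List.mem_cons.1 hn with h | h
    · exact h.symm
    · have := (List.pairwise_cons.1 hl).1 n h
      omega

lemma last_of_sorted {l : List ℕ} (hl : l.Pairwise (· ≤ ·)) {s : ℕ} (hs : s ∈ l)
    (hmax : ∀ x ∈ l, x ≤ s) : l.getLast? = some s := by
  rcases List.eq_nil_or_concat l with h | ⟨t, y, h⟩
  · subst h; simp at hs
  · rw [List.concat_eq_append] at h
    subst h
    rw [List.getLast?_concat]
    congr 1
    have h1 : y ≤ s := hmax y (by simp)
    have h2 : s ∈ t ∨ s = y := by simpa using hs
    rcases h2 with h | h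
    · have := (List.pairwise_append.1 hl).2.2 s h y (by simp)
      omega
    · exact h.symm

lemma mem_lastTerms {m n s : ℕ} (M : Multiset ℕ) (hprod : ∃ R : ℕ, M.prod = R ^ m)
    (hcount : ∀ x, M.count x ≤ m - 1) (hn : n ∈ M) (hs : s ∈ M) (hmin : ∀ x ∈ M, n ≤ x)
    (hmax : ∀ x ∈ M, x ≤ s) : s ∈ lastTerms m n := by
  refine ⟨M.sort (· ≤ ·), ⟨Multiset.pairwise_sort _ _, ?_, ?_⟩, ?_, ?_⟩
  · obtain ⟨R, hR⟩ := hprod
    exact ⟨R, by rw [← Multiset.prod_coe, Multiset.sort_eq, hR]⟩
  · intro x
    rw [← Multiset.coe_count, Multiset.sort_eq]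
    exact hcount x
  · exact head_of_sorted (Multiset.pairwise_sort _ _) (by simpa using hn) (by simpa using hmin)
  · exact last_of_sorted (Multiset.pairwise_sort _ _) (by simpa using hs) (by simpa using hmax)

/-- The key relation `ab · (a+1)(b+1) · (a(b+1) · (a+1)b)^(m-1) = (a(a+1)b(b+1))^m`. -/
lemma composite_case {m a b : ℕ} (hm : 3 ≤ m) (ha : 2 ≤ a) (hab : a ≤ b) :
    (a + 1) * (b + 1) ∈ lastTerms m (a * b) := by
  have hx1 : a * b < a * (b + 1) := by nlinarith
  have hx2 : a * (b + 1) ≤ (a + 1) * b := by nlinarith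
  have hx3 : (a + 1) * b < (a + 1) * (b + 1) := by nlinarith
  rcases Nat.lt_or_eq_of_le hab with hlt | heq
  · have hx2' : a * (b + 1) < (a + 1) * b := by nlinarith
    apply mem_lastTerms ({a * b} + Multiset.replicate (m - 1) (a * (b + 1)) +
      Multiset.replicate (m - 1) ((a + 1) * b) + {(a + 1) * (b + 1)})
    · refine ⟨a * (a + 1) * (b * (b + 1)), ?_⟩
      simp only [Multiset.prod_add, Multiset.prod_singleton, Multiset.prod_replicate]
      obtain ⟨k, rfl⟩ : ∃ k, m = k + 1 := ⟨m - 1, by omega⟩
      simp only [Nat.add_sub_cancel]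
      rw [pow_succ, mul_pow, mul_pow, mul_pow, mul_pow, mul_pow]
      ring
    · intro x
      simp only [Multiset.count_add, Multiset.count_singleton, Multiset.count_replicate]
      split_ifs <;> omega
    · simp
    · simp
    · intro x hx
      simp only [Multiset.mem_add, Multiset.mem_singleton, Multiset.mem_replicate] at hx
      rcases hx with ((h | h) | h) | h <;> omega
    · intro x hx
      simp only [Multiset.mem_add, Multiset.mem_singleton, Multiset.mem_replicate] at hx
      rcases hx with ((h | h) | h) | h <;> omega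
  · subst heq
    apply mem_lastTerms ({a * a} + Multiset.replicate (m - 2) (a * (a + 1)) + {(a + 1) * (a + 1)})
    · refine ⟨a * (a + 1), ?_⟩
      simp only [Multiset.prod_add, Multiset.prod_singleton, Multiset.prod_replicate]
      obtain ⟨k, rfl⟩ : ∃ k, m = k + 2 := ⟨m - 2, by omega⟩
      simp only [Nat.add_sub_cancel]
      rw [pow_add]
      ring
    · intro x
      simp only [Multiset.count_add, Multiset.count_singleton, Multiset.count_replicate]
      split_ifs <;> omega
    · simp
    · simp
    · intro x hx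
      simp only [Multiset.mem_add, Multiset.mem_singleton, Multiset.mem_replicate] at hx
      rcases hx with (h | h) | h <;> omega
    · intro x hx
      simp only [Multiset.mem_add, Multiset.mem_singleton, Multiset.mem_replicate] at hx
      rcases hx with (h | h) | h <;> omega

/-- `6^3 · 8^(m-1) · 9^((m-3)/2) = 24^m` for odd `m`. -/
lemma six_case {m : ℕ} (hm : 5 ≤ m) (hodd : Odd m) : 9 ∈ lastTerms m 6 := by
  obtain ⟨k, rfl⟩ := hodd
  apply mem_lastTerms (Multiset.replicate 3 6 + Multiset.replicate (2 * k) 8 +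
    Multiset.replicate (k - 1) 9)
  · refine ⟨24, ?_⟩
    simp only [Multiset.prod_add, Multiset.prod_replicate]
    obtain ⟨j, rfl⟩ : ∃ j, k = j + 1 := ⟨k - 1, by omega⟩
    simp only [Nat.add_sub_cancel]
    have h8 : (8 : ℕ) = 2 ^ 3 := by norm_num
    have h9 : (9 : ℕ) = 3 ^ 2 := by norm_num
    have h6 : (6 : ℕ) = 2 * 3 := by norm_num
    have h24 : (24 : ℕ) = 2 ^ 3 * 3 := by norm_num
    rw [h8, h9, h6, h24, ← pow_mul, ← pow_mul, mul_pow, mul_pow, ← pow_mul]
    ring
  · intro x
    simp only [Multiset.count_add, Multiset.count_replicate]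
    split_ifs <;> omega
  · simp
  · simp only [Multiset.mem_add, Multiset.mem_replicate]
    right
    exact ⟨by omega, trivial⟩
  · intro x hx
    simp only [Multiset.mem_add, Multiset.mem_replicate] at hx
    rcases hx with (h | h) | h <;> omega
  · intro x hx
    simp only [Multiset.mem_add, Multiset.mem_replicate] at hx
    rcases hx with (h | h) | h <;> omega

lemma g_le {m n s : ℕ} (h : s ∈ lastTerms m n) : g m n ≤ s := Nat.sInf_le h

lemma one_case {m : ℕ} (hm : 3 ≤ m) : g m 1 ≤ 1 := by
  apply g_le
  refine ⟨[1], ⟨by simp, ⟨1, by simp⟩, ?_⟩, by simp, by simp⟩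
  intro x
  rw [List.count_singleton]
  split_ifs <;> omega

/-- there is no `3`-product sequence from `4` to `8` -/
lemma four_case : g 3 4 ≠ 8 := by
  intro h
  have hne : (lastTerms 3 4).Nonempty := by
    by_contra hemp
    rw [Set.not_nonempty_iff_eq_empty] at hemp
    rw [g, hemp, Nat.sInf_empty] at h
    omega
  have hmem : 8 ∈ lastTerms 3 4 := by
    have := Nat.sInf_mem hne
    rw [← g, h] at this
    exact this
  obtain ⟨l, ⟨hsort, ⟨R, hR⟩, hcount⟩, hhead, hlast⟩ := hmem
  -- all terms are between 4 and 8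
  have hlo : ∀ x ∈ l, 4 ≤ x := by
    cases l with
    | nil => simp at hhead
    | cons y t =>
      rw [List.head?_cons] at hhead
      have hy : y = 4 := by simpa using hhead
      intro x hx
      rcases List.mem_cons.1 hx with h | h
      · omega
      · have := (List.pairwise_cons.1 hsort).1 x h
        omega
  have hhi : ∀ x ∈ l, x ≤ 8 := by
    rcases List.eq_nil_or_concat l with h | ⟨t, y, h⟩
    · subst h; simp at hhead
    · rw [List.concat_eq_append] at h
      subst h
      rw [List.getLast?_concat] at hlast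
      have hy : y = 8 := by simpa using hlast
      intro x hx
      rcases List.mem_append.1 hx with h | h
      · have := (List.pairwise_append.1 hsort).2.2 x h y (by simp)
        omega
      · have : x = y := by simpa using h
        omega
  have h4 : 4 ∈ l := List.mem_of_mem_head? (by rw [hhead]; simp)
  -- the product as a product over 4..8
  have hprod : l.prod = 4 ^ l.count 4 * 5 ^ l.count 5 * 6 ^ l.count 6 * 7 ^ l.count 7 * 8 ^ l.count 8 := by
    rw [Finset.prod_list_count_of_subset l (Finset.Icc 4 8) (by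
      intro x hx
      rw [List.mem_toFinset] at hx
      rw [Finset.mem_Icc]
      exact ⟨hlo x hx, hhi x hx⟩)]
    rw [show Finset.Icc 4 8 = ({4, 5, 6, 7, 8} : Finset ℕ) from by decide]
    rw [Finset.prod_insert (by decide), Finset.prod_insert (by decide), Finset.prod_insert (by decide),
      Finset.prod_insert (by decide), Finset.prod_singleton]
    ring
  have hc4 : 1 ≤ l.count 4 := List.one_le_count_iff.2 h4
  have hc4' := hcount 4
  have hc6' := hcount 6
  set a := l.count 4
  set b := l.count 5
  set c := l.count 6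
  set e := l.count 7
  set f := l.count 8
  have hR0 : R ≠ 0 := by
    rintro rfl
    rw [hprod] at hR
    have : 0 < 4 ^ a * 5 ^ b * 6 ^ c * 7 ^ e * 8 ^ f := by positivity
    rw [hR] at this
    simp at this
  have hfac := congrArg Nat.factorization (hprod.symm.trans hR)
  have h3 := congrArg (fun F => F 3) hfac
  have h2 := congrArg (fun F => F 2) hfac
  have e4 : (4 : ℕ) = 2 ^ 2 := by norm_num
  have e6 : (6 : ℕ) = 2 * 3 := by norm_num
  have e8 : (8 : ℕ) = 2 ^ 3 := by norm_num
  have key : 4 ^ a * 5 ^ b * 6 ^ c * 7 ^ e * 8 ^ f = 2 ^ (2 * a + c + 3 * f) * (3 ^ c * (5 ^ b * 7 ^ e)) := by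
    rw [e4, e6, e8, mul_pow, ← pow_mul, ← pow_mul, pow_add, pow_add]
    ring
  simp only [key] at h2 h3
  have p3 : (2 ^ (2 * a + c + 3 * f) * (3 ^ c * (5 ^ b * 7 ^ e))).factorization 3 = c := by
    rw [Nat.factorization_mul (by positivity) (by positivity),
      Nat.factorization_mul (by positivity) (by positivity),
      Nat.factorization_mul (by positivity) (by positivity)]
    simp [Nat.factorization_pow, Nat.Prime.factorization (show Nat.Prime 2 by norm_num),
      Nat.Prime.factorization (show Nat.Prime 3 by norm_num),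
      Nat.Prime.factorization (show Nat.Prime 5 by norm_num),
      Nat.Prime.factorization (show Nat.Prime 7 by norm_num)]
  have p2 : (2 ^ (2 * a + c + 3 * f) * (3 ^ c * (5 ^ b * 7 ^ e))).factorization 2 = 2 * a + c + 3 * f := by
    rw [Nat.factorization_mul (by positivity) (by positivity),
      Nat.factorization_mul (by positivity) (by positivity),
      Nat.factorization_mul (by positivity) (by positivity)]
    simp [Nat.factorization_pow, Nat.Prime.factorization (show Nat.Prime 2 by norm_num),
      Nat.Prime.factorization (show Nat.Prime 3 by norm_num),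
      Nat.Prime.factorization (show Nat.Prime 5 by norm_num),
      Nat.Prime.factorization (show Nat.Prime 7 by norm_num)]
  rw [p3, Nat.factorization_pow] at h3
  rw [p2, Nat.factorization_pow] at h2
  simp only [Finsupp.smul_apply, smul_eq_mul] at h2 h3
  omega

/-- **Q1 of MP_c9219e_nt.** For odd `m ≥ 3`, if `g_m(n) = 2 n` then `n = 0`, or `n` is prime, or
`n = 4` and `m ≥ 5`, or `(m, n) = (3, 6)`. -/
theorem result : ∀ m : ℕ, Odd m → 3 ≤ m → ∀ n : ℕ, g m n = 2 * n →
    n = 0 ∨ n.Prime ∨ (n = 4 ∧ 5 ≤ m) ∨ (m = 3 ∧ n = 6) := by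
  intro m hodd hm n hg
  by_cases h0 : n = 0
  · exact Or.inl h0
  by_cases hp : n.Prime
  · exact Or.inr (Or.inl hp)
  by_cases h1 : n = 1
  · exfalso
    subst h1
    have := one_case hm
    omega
  by_cases h4 : n = 4
  · subst h4
    by_cases hm5 : 5 ≤ m
    · exact Or.inr (Or.inr (Or.inl ⟨rfl, hm5⟩))
    · exfalso
      have : m = 3 := by
        obtain ⟨k, rfl⟩ := hodd
        omega
      subst this
      exact four_case hg
  by_cases h6 : n = 6
  · subst h6
    by_cases hm3 : m = 3
    · exact Or.inr (Or.inr (Or.inr ⟨hm3, rfl⟩))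
    · exfalso
      have hm5 : 5 ≤ m := by
        obtain ⟨k, rfl⟩ := hodd
        omega
      have := g_le (six_case hm5 hodd)
      omega
  exfalso
  -- composite n
  have hn2 : 2 ≤ n := by omega
  obtain ⟨a, ha, b, hb, hab, hle⟩ : ∃ a : ℕ, 2 ≤ a ∧ ∃ b : ℕ, 2 ≤ b ∧ n = a * b ∧ a ≤ b := by
    obtain ⟨c, hc, hc1, hc2⟩ := (Nat.not_prime_iff_exists_dvd_lt hn2).1 hp
    obtain ⟨k, hk⟩ := hc
    have hk2 : 2 ≤ k := by
      by_contra hlt
      have : k = 0 ∨ k = 1 := by omega
      rcases this with rfl | rfl <;> omega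
    rcases le_total c k with h | h
    · exact ⟨c, hc1, k, hk2, hk, h⟩
    · exact ⟨k, hk2, c, hc1, by rw [hk, mul_comm], h⟩
  have hlt : (a + 1) * (b + 1) < 2 * (a * b) := by
    have hb4 : 3 ≤ a ∨ 4 ≤ b := by
      by_contra hcon
      push Not at hcon
      have ha2 : a = 2 := by omega
      have : b = 2 ∨ b = 3 := by omega
      rcases this with rfl | rfl <;> subst ha2 <;> omega
    rcases hb4 with h | h <;> nlinarith
  have := g_le (composite_case hm ha hle)
  rw [← hab] at this
  rw [hab] at hg this
  omega

end Pool.Agent.Results.MP_c9219e_nt.OddExponentCase
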